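import Pool.Agent.H69.RE.FF

/-!
# Rules anchored at the ends of the words (MP_56d4a1_al)

For a core with finitely many cosets: the typed rules, the rules `a b -> a k b` for non composable
letters (`k` the typed normal form of value one between the two types), and anchored rules at the
beginning and at the end of the words.
-/

set_option autoImplicit false

namespace H69.RE

open Relation H1.RW H1.RW.Core

/-- One rewriting step with a rule of `R` anywhere, with a rule of `P` at the beginning of the word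
or with a rule of `S` at the end of the word. -/
def EndStep {α : Type} (R P S : List (List α × List α)) (u v : List α) : Prop :=
  Step R u v ∨ (∃ y : List α, ∃ p ∈ P, u = p.1 ++ y ∧ v = p.2 ++ y) ∨
    ∃ x : List α, ∃ p ∈ S, u = x ++ p.1 ∧ v = x ++ p.2

section

variable {A G H X : Type} [Group G] [Group H] (C : Core A G H X)

theorem exists_nf {x y : X} {h : H} (hT : C.T x h y) :
    ∃ u, C.Path x u y ∧ Irred C.RA (C.ex u) ∧ C.φ (FreeMonoid.ofList (C.ex u)) = h := by
  obtain ⟨u, hu1, hu2⟩ := exists_path hT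
  obtain ⟨v, _, h2, h3, h4⟩ := norm u x y hu1
  exact ⟨v, h2, h3, h4.symm.trans hu2⟩

theorem T_kap (x y : X) : C.T x ((C.r x)⁻¹ * C.r y) y := ⟨1, by simp⟩

/-- The connector. -/
noncomputable def kap (x y : X) : List (Fin C.N) := (exists_nf C (T_kap C x y)).choose

theorem kap_path (x y : X) : C.Path x (kap C x y) y := (exists_nf C (T_kap C x y)).choose_spec.1

theorem kap_irr (x y : X) : Irred C.RA (C.ex (kap C x y)) :=
  (exists_nf C (T_kap C x y)).choose_spec.2.1

theorem kap_val (x y : X) : C.φ (FreeMonoid.ofList (C.ex (kap C x y))) = (C.r x)⁻¹ * C.r y :=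
  (exists_nf C (T_kap C x y)).choose_spec.2.2

theorem nf_unique {x y y' : X} {u v : List (Fin C.N)} (hu : C.Path x u y) (hv : C.Path x v y')
    (hu2 : Irred C.RA (C.ex u)) (hv2 : Irred C.RA (C.ex v))
    (h : C.φ (FreeMonoid.ofList (C.ex u)) = C.φ (FreeMonoid.ofList (C.ex v))) : u = v :=
  decomp_unique hu hv (C.uniq _ _ hu2 hv2 h)

theorem kap_self (x : X) : kap C x x = [] := by
  have hp : C.Path x [] x := rfl
  refine nf_unique C (kap_path C x x) hp (kap_irr C x x) (by rw [ex_nil]; exact irred_nil) ?_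
  rw [kap_val, ex_nil, FreeMonoid.ofList_nil, map_one, inv_mul_cancel]

theorem kap_ne {x y : X} (h : x ≠ y) : kap C x y ≠ [] := by
  intro h0
  have := kap_path C x y
  rw [h0] at this
  exact h this

theorem red_kap {x y : X} {u : List (Fin C.N)} (hp : C.Path x u y)
    (hv : C.φ (FreeMonoid.ofList (C.ex u)) = (C.r x)⁻¹ * C.r y) :
    ReflTransGen (Step C.RS) u (kap C x y) := by
  obtain ⟨v, h1, h2, h3, h4⟩ := norm u x y hp
  have : v = kap C x y := nf_unique C h2 (kap_path C x y) h3 (kap_irr C x y) (by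
    rw [kap_val, ← h4, hv])
  rw [← this]
  exact h1

/-- The word with all connectors inserted, up to the base object. -/
noncomputable def full : X → List (Fin C.N) → List (Fin C.N)
  | x, [] => kap C x C.x0
  | x, b :: u => kap C x (C.src b) ++ b :: full (C.tgt b) u

open Classical in
/-- The number of bad junctions, the end included. -/
noncomputable def bad : X → List (Fin C.N) → ℕ
  | x, [] => if x = C.x0 then 0 else 1
  | x, b :: u => (if x = C.src b then 0 else 1) + bad (C.tgt b) u

/-- The type at the end of a word. -/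
def en : X → List (Fin C.N) → X
  | x, [] => x
  | _, b :: u => en (C.tgt b) u

noncomputable def pre : X → List (Fin C.N) → List (Fin C.N)
  | _, [] => []
  | x, b :: u => kap C x (C.src b) ++ b :: pre (C.tgt b) u

open Classical in
noncomputable def bpre : X → List (Fin C.N) → ℕ
  | _, [] => 0
  | x, b :: u => (if x = C.src b then 0 else 1) + bpre (C.tgt b) u

theorem full_app (a w : List (Fin C.N)) : ∀ x, full C x (a ++ w) =
    pre C x a ++ full C (en C x a) w := by
  induction a with
  | nil => intro x; rfl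
  | cons b a ih =>
    intro x
    rw [List.cons_append, full, pre, en, ih]
    simp

theorem bad_app (a w : List (Fin C.N)) : ∀ x, bad C x (a ++ w) =
    bpre C x a + bad C (en C x a) w := by
  induction a with
  | nil => intro x; simp [bpre, en]
  | cons b a ih =>
    intro x
    rw [List.cons_append, bad, bpre, en, ih]
    ring

theorem full_path {y : X} (w c : List (Fin C.N)) : ∀ x, C.Path x w y →
    full C x (w ++ c) = w ++ full C y c := by
  induction w with
  | nil => intro x h; have : x = y := h; subst this; rfl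
  | cons b w ih =>
    intro x h
    rw [List.cons_append, full, ih _ h.2, h.1, kap_self]
    simp

theorem bad_path {y : X} (w c : List (Fin C.N)) : ∀ x, C.Path x w y →
    bad C x (w ++ c) = bad C y c := by
  induction w with
  | nil => intro x h; have : x = y := h; subst this; rfl
  | cons b w ih =>
    intro x h
    rw [List.cons_append, bad, ih _ h.2, h.1]
    simp

theorem full_path' {x y z : X} {w : List (Fin C.N)} (hw : w ≠ []) (hp : C.Path x w y)
    (c : List (Fin C.N)) : full C z (w ++ c) = kap C z x ++ w ++ full C y c := by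
  cases w with
  | nil => exact absurd rfl hw
  | cons b w =>
    rw [List.cons_append, full, full_path C w c _ hp.2, hp.1]
    simp

open Classical in
theorem bad_path' {x y z : X} {w : List (Fin C.N)} (hw : w ≠ []) (hp : C.Path x w y)
    (c : List (Fin C.N)) : bad C z (w ++ c) = (if z = x then 0 else 1) + bad C y c := by
  cases w with
  | nil => exact absurd rfl hw
  | cons b w =>
    rw [List.cons_append, bad, bad_path C w c _ hp.2, hp.1]

theorem kap_kap (x y z : X) : ReflTransGen (Step C.RS) (kap C x y ++ kap C y z) (kap C x z) := by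
  refine red_kap C (path_append.2 ⟨y, kap_path C x y, kap_path C y z⟩) ?_
  rw [ex_append, FreeMonoid.ofList_append, map_mul, kap_val, kap_val]
  group

theorem red_full {x y z : X} {w : List (Fin C.N)} (hp : C.Path x w y) (c : List (Fin C.N)) :
    ReflTransGen (Step C.RS) (kap C z x ++ w ++ full C y c) (full C z (w ++ c)) := by
  by_cases hw : w = []
  · subst hw
    have : x = y := hp
    subst this
    rw [List.append_nil, List.nil_append]
    cases c with
    | nil => exact kap_kap C z x C.x0
    | cons d c =>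
      rw [full, full]
      have := rtg_context [] (d :: full C (C.tgt d) c) (kap_kap C z x (C.src d))
      simpa using this
  · rw [full_path' C hw hp]

/-- The full word of a word. -/
noncomputable def fl (u : List (Fin C.N)) : List (Fin C.N) := full C C.x0 u

theorem fl_path (u : List (Fin C.N)) : ∀ x, C.Path x (full C x u) C.x0 := by
  induction u with
  | nil => intro x; exact kap_path C x C.x0
  | cons b u ih =>
    intro x
    rw [full, path_append]
    exact ⟨C.src b, kap_path C _ _, rfl, ih _⟩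

open Classical in
/-- The rules for non composable letters. -/
noncomputable def J : List (List (Fin C.N) × List (Fin C.N)) :=
  (Finset.univ.filter (fun p : Fin C.N × Fin C.N => C.tgt p.1 ≠ C.src p.2)).toList.map
    (fun p => ([p.1, p.2], p.1 :: (kap C (C.tgt p.1) (C.src p.2) ++ [p.2])))

open Classical in
/-- The rules at the beginning. -/
noncomputable def PB : List (List (Fin C.N) × List (Fin C.N)) :=
  (Finset.univ.filter (fun b : Fin C.N => C.x0 ≠ C.src b)).toList.map
    (fun b => ([b], kap C C.x0 (C.src b) ++ [b]))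

open Classical in
/-- The rules at the end. -/
noncomputable def PE : List (List (Fin C.N) × List (Fin C.N)) :=
  (Finset.univ.filter (fun a : Fin C.N => C.tgt a ≠ C.x0)).toList.map
    (fun a => ([a], a :: kap C (C.tgt a) C.x0))

open Classical in
theorem mem_J {p : List (Fin C.N) × List (Fin C.N)} : p ∈ J C ↔
    ∃ a b, C.tgt a ≠ C.src b ∧ p = ([a, b], a :: (kap C (C.tgt a) (C.src b) ++ [b])) := by
  unfold J
  rw [List.mem_map]
  constructor
  · rintro ⟨q, hq, rfl⟩
    rw [Finset.mem_toList, Finset.mem_filter] at hq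
    exact ⟨q.1, q.2, hq.2, rfl⟩
  · rintro ⟨a, b, h, rfl⟩
    exact ⟨(a, b), by rw [Finset.mem_toList, Finset.mem_filter]; exact ⟨Finset.mem_univ _, h⟩, rfl⟩

open Classical in
theorem mem_PB {p : List (Fin C.N) × List (Fin C.N)} : p ∈ PB C ↔
    ∃ b, C.x0 ≠ C.src b ∧ p = ([b], kap C C.x0 (C.src b) ++ [b]) := by
  unfold PB
  rw [List.mem_map]
  constructor
  · rintro ⟨q, hq, rfl⟩
    rw [Finset.mem_toList, Finset.mem_filter] at hq
    exact ⟨q, hq.2, rfl⟩
  · rintro ⟨b, h, rfl⟩
    exact ⟨b, by rw [Finset.mem_toList, Finset.mem_filter]; exact ⟨Finset.mem_univ _, h⟩, rfl⟩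

open Classical in
theorem mem_PE {p : List (Fin C.N) × List (Fin C.N)} : p ∈ PE C ↔
    ∃ a, C.tgt a ≠ C.x0 ∧ p = ([a], a :: kap C (C.tgt a) C.x0) := by
  unfold PE
  rw [List.mem_map]
  constructor
  · rintro ⟨q, hq, rfl⟩
    rw [Finset.mem_toList, Finset.mem_filter] at hq
    exact ⟨q, hq.2, rfl⟩
  · rintro ⟨b, h, rfl⟩
    exact ⟨b, by rw [Finset.mem_toList, Finset.mem_filter]; exact ⟨Finset.mem_univ _, h⟩, rfl⟩

/-- The rules. -/
noncomputable def RR : List (List (Fin C.N) × List (Fin C.N)) := C.RS ++ J C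

theorem fl_RS {u v : List (Fin C.N)} (h : Step C.RS u v) :
    TransGen (Step C.RS) (fl C u) (fl C v) := by
  obtain ⟨a, c, p, hp, rfl, rfl⟩ := h
  have hp' := mem_RS.1 hp
  have hne := ruleSet_ne hp'
  obtain ⟨_, _, _, _, x, y, h1, h2⟩ := hp'
  unfold fl
  rw [List.append_assoc, List.append_assoc, full_app C a (p.1 ++ c), full_app C a (p.2 ++ c),
    full_path' C hne h1]
  have s1 : Step C.RS (pre C C.x0 a ++ (kap C (en C C.x0 a) x ++ p.1 ++ full C y c))
      (pre C C.x0 a ++ (kap C (en C C.x0 a) x ++ p.2 ++ full C y c)) :=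
    ⟨pre C C.x0 a ++ kap C (en C C.x0 a) x, full C y c, p, hp, by simp, by simp⟩
  have s2 := rtg_context (pre C C.x0 a) [] (red_full C (z := en C C.x0 a) h2 c)
  simp only [List.append_nil] at s2
  exact TransGen.head' s1 s2

theorem fl_J {u v : List (Fin C.N)} (h : Step (J C) u v) :
    fl C v = fl C u ∧ bad C C.x0 v < bad C C.x0 u := by
  classical
  obtain ⟨s, c, p, hp, rfl, rfl⟩ := h
  obtain ⟨a, b, hab, rfl⟩ := (mem_J C).1 hp
  have hp2 : C.Path (C.src a) (a :: (kap C (C.tgt a) (C.src b) ++ [b])) (C.tgt b) := by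
    refine ⟨rfl, ?_⟩
    rw [path_append]
    exact ⟨C.src b, kap_path C _ _, rfl, rfl⟩
  unfold fl
  have e1 : s ++ [a, b] ++ c = s ++ (a :: b :: c) := by simp
  have e2 : s ++ (a :: (kap C (C.tgt a) (C.src b) ++ [b])) ++ c =
      s ++ ((a :: (kap C (C.tgt a) (C.src b) ++ [b])) ++ c) := by simp
  simp only [e1, e2]
  rw [full_app C s ((a :: (kap C (C.tgt a) (C.src b) ++ [b])) ++ c),
    full_app C s (a :: b :: c), bad_app C s ((a :: (kap C (C.tgt a) (C.src b) ++ [b])) ++ c),
    bad_app C s (a :: b :: c), full_path' C (by simp) hp2, bad_path' C (by simp) hp2]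
  constructor
  · rw [full, full]
    simp
  · rw [bad, bad, if_neg hab]
    omega

theorem fl_PB {b : Fin C.N} (hb : C.x0 ≠ C.src b) (c : List (Fin C.N)) :
    fl C (kap C C.x0 (C.src b) ++ [b] ++ c) = fl C ([b] ++ c) ∧
      bad C C.x0 (kap C C.x0 (C.src b) ++ [b] ++ c) < bad C C.x0 ([b] ++ c) := by
  classical
  have hp2 : C.Path C.x0 (kap C C.x0 (C.src b) ++ [b]) (C.tgt b) := by
    rw [path_append]
    exact ⟨C.src b, kap_path C _ _, rfl, rfl⟩
  unfold fl
  rw [full_path C _ c _ hp2, bad_path C _ c _ hp2]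
  constructor
  · rw [List.cons_append, List.nil_append, full]
    simp
  · rw [List.cons_append, List.nil_append, bad, if_neg hb]
    omega

theorem fl_PE {a : Fin C.N} (ha : C.tgt a ≠ C.x0) (s : List (Fin C.N)) :
    fl C (s ++ a :: kap C (C.tgt a) C.x0) = fl C (s ++ [a]) ∧
      bad C C.x0 (s ++ a :: kap C (C.tgt a) C.x0) < bad C C.x0 (s ++ [a]) := by
  classical
  unfold fl
  rw [full_app, full_app, bad_app, bad_app, full, full, bad, bad, full, bad, if_neg ha]
  have e1 := full_path C (kap C (C.tgt a) C.x0) [] _ (kap_path C (C.tgt a) C.x0)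
  have e2 := bad_path C (kap C (C.tgt a) C.x0) [] _ (kap_path C (C.tgt a) C.x0)
  rw [List.append_nil] at e1 e2
  rw [e1, e2, full, bad, kap_self, if_pos rfl]
  constructor
  · simp
  · omega

theorem step_RR {u v : List (Fin C.N)} : Step (RR C) u v ↔ Step C.RS u v ∨ Step (J C) u v := by
  unfold RR Step
  constructor
  · rintro ⟨x, y, p, hp, h⟩
    rcases List.mem_append.1 hp with hp | hp
    · exact Or.inl ⟨x, y, p, hp, h⟩
    · exact Or.inr ⟨x, y, p, hp, h⟩
  · rintro (⟨x, y, p, hp, h⟩ | ⟨x, y, p, hp, h⟩)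
    · exact ⟨x, y, p, List.mem_append.2 (Or.inl hp), h⟩
    · exact ⟨x, y, p, List.mem_append.2 (Or.inr hp), h⟩

theorem endStep_dec {u v : List (Fin C.N)} (h : EndStep (RR C) (PB C) (PE C) u v) :
    TransGen (Step C.RS) (fl C u) (fl C v) ∨
      fl C v = fl C u ∧ bad C C.x0 v < bad C C.x0 u := by
  rcases h with h | ⟨y, p, hp, rfl, rfl⟩ | ⟨x, p, hp, rfl, rfl⟩
  · rcases (step_RR C).1 h with h | h
    · exact Or.inl (fl_RS C h)
    · exact Or.inr (fl_J C h)
  · obtain ⟨b, hb, rfl⟩ := (mem_PB C).1 hp
    exact Or.inr (fl_PB C hb y)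
  · obtain ⟨a, ha, rfl⟩ := (mem_PE C).1 hp
    exact Or.inr (fl_PE C ha x)

theorem endStep_wf : WellFounded (fun v u : List (Fin C.N) =>
    EndStep (RR C) (PB C) (PE C) u v) := by
  have h1 : WellFounded (fun v u : List (Fin C.N) => TransGen (Step C.RS) u v) := by
    refine Subrelation.wf ?_ (terminating_RS (C := C)).transGen
    intro v u h
    rw [← Relation.transGen_swap]
    exact h
  have h2 := WellFounded.prod_lex h1 (Nat.lt_wfRel.wf)
  have h3 := InvImage.wf (fun u : List (Fin C.N) => (fl C u, bad C C.x0 u)) h2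
  refine Subrelation.wf ?_ h3
  intro v u h
  rcases endStep_dec C h with h | ⟨h4, h5⟩
  · exact Prod.Lex.left _ _ h
  · change Prod.Lex _ _ (fl C v, bad C C.x0 v) (fl C u, bad C C.x0 u)
    rw [h4]
    exact Prod.Lex.right _ h5

/-- The value of a word. -/
noncomputable def hv : FreeMonoid (Fin C.N) →* G := FreeMonoid.lift (fun b => (C.wd_T b).choose)

theorem hv_path {x y : X} {u : List (Fin C.N)} (hp : C.Path x u y) :
    C.r x * C.φ (FreeMonoid.ofList (C.ex u)) = C.ι (hv C (FreeMonoid.ofList u)) * C.r y := by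
  induction u generalizing x with
  | nil =>
    have : x = y := hp
    subst this
    rw [ex_nil, FreeMonoid.ofList_nil, FreeMonoid.ofList_nil, map_one, map_one, map_one, mul_one,
      one_mul]
  | cons b u ih =>
    have h1 := ih hp.2
    have hb := (C.wd_T b).choose_spec
    have h0 : hv C (FreeMonoid.of b) = (C.wd_T b).choose := by
      unfold hv
      rw [FreeMonoid.lift_eval_of]
    rw [ex_cons, FreeMonoid.ofList_append, map_mul, ← mul_assoc, FreeMonoid.ofList_cons, map_mul,
      h0, map_mul, mul_assoc (C.ι _), ← h1, ← mul_assoc, ← hb, hp.1]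

theorem hv_kap (x y : X) : hv C (FreeMonoid.ofList (kap C x y)) = 1 := by
  have h := hv_path C (kap_path C x y)
  rw [kap_val] at h
  apply C.inj
  rw [map_one]
  have : C.ι (hv C (FreeMonoid.ofList (kap C x y))) * C.r y = 1 * C.r y := by
    rw [← h]; group
  exact mul_right_cancel this

theorem hv_RR {p : List (Fin C.N) × List (Fin C.N)} (hp : p ∈ RR C) :
    hv C (FreeMonoid.ofList p.1) = hv C (FreeMonoid.ofList p.2) := by
  rcases List.mem_append.1 hp with hp | hp
  · rw [mem_RS] at hp
    obtain ⟨_, _, _, h4, x, y, h5, h6⟩ := hp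
    apply C.inj
    have h7 := hv_path C h5
    have h8 := hv_path C h6
    rw [h4, h8] at h7
    exact (mul_right_cancel h7).symm
  · obtain ⟨a, b, _, rfl⟩ := (mem_J C).1 hp
    simp only [FreeMonoid.ofList_cons, FreeMonoid.ofList_append, map_mul, hv_kap,
      FreeMonoid.ofList_nil, map_one, one_mul]

theorem hv_step {u v : List (Fin C.N)} (h : Step (RR C) u v) :
    hv C (FreeMonoid.ofList u) = hv C (FreeMonoid.ofList v) := by
  obtain ⟨x, y, p, hp, rfl, rfl⟩ := h
  simp only [FreeMonoid.ofList_append, map_mul, hv_RR C hp]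

theorem hv_endStep {u v : List (Fin C.N)} (h : EndStep (RR C) (PB C) (PE C) u v) :
    hv C (FreeMonoid.ofList u) = hv C (FreeMonoid.ofList v) := by
  rcases h with h | ⟨y, p, hp, rfl, rfl⟩ | ⟨x, p, hp, rfl, rfl⟩
  · exact hv_step C h
  · obtain ⟨b, _, rfl⟩ := (mem_PB C).1 hp
    simp only [FreeMonoid.ofList_append, map_mul, hv_kap, one_mul]
  · obtain ⟨a, _, rfl⟩ := (mem_PE C).1 hp
    simp only [FreeMonoid.ofList_append, FreeMonoid.ofList_cons, map_mul, hv_kap,
      FreeMonoid.ofList_nil, map_one, mul_one]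

/-- Irreducible words are the typed irreducible words. -/
theorem typed_of {u : List (Fin C.N)}
    (h : ∀ s a b c, u = s ++ [a, b] ++ c → C.tgt a = C.src b) (hu : u ≠ []) :
    ∃ y, C.Path (C.src (u.head hu)) u y := by
  induction u with
  | nil => exact absurd rfl hu
  | cons a u ih =>
    cases u with
    | nil => exact ⟨C.tgt a, rfl, rfl⟩
    | cons b u =>
      obtain ⟨y, hy⟩ := ih (by
        intro s a' b' c hh
        exact h (a :: s) a' b' c (by rw [hh]; simp)) (by simp)
      refine ⟨y, rfl, ?_⟩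
      rw [h [] a b u (by simp)]
      exact hy

theorem irred_RR_iff {u : List (Fin C.N)} : Irred (RR C) u ↔
    ∃ x y, C.Path x u y ∧ Irred C.RA (C.ex u) := by
  constructor
  · intro h
    by_cases hu : u = []
    · subst hu
      exact ⟨C.x0, C.x0, rfl, by rw [ex_nil]; exact irred_nil⟩
    · obtain ⟨y, hy⟩ := typed_of C (u := u) (by
        intro s a b c hc
        by_contra hcon
        refine h (s ++ (a :: (kap C (C.tgt a) (C.src b) ++ [b])) ++ c) ((step_RR C).2 (Or.inr ?_))
        exact ⟨s, c, _, (mem_J C).2 ⟨a, b, hcon, rfl⟩, hc, rfl⟩) hu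
      refine ⟨_, y, hy, ?_⟩
      by_contra hcon
      obtain ⟨v, hv⟩ := exists_step hy hcon
      exact h v ((step_RR C).2 (Or.inl hv))
  · rintro ⟨x, y, hp, hi⟩ v hv
    rcases (step_RR C).1 hv with hv | ⟨s, c, p, hpJ, rfl, rfl⟩
    · have h1 := ex_step hv
      obtain ⟨w, hw, _⟩ := TransGen.head'_iff.1 h1
      exact hi w hw
    · obtain ⟨a, b, hab, rfl⟩ := (mem_J C).1 hpJ
      rw [path_append] at hp
      obtain ⟨z, hp, _⟩ := hp
      rw [path_append] at hp
      obtain ⟨z', _, hp⟩ := hp
      exact hab hp.2.1.symm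

/-- Words which are irreducible for all rules. -/
theorem endIrred {u : List (Fin C.N)} (h : ∀ v, ¬ EndStep (RR C) (PB C) (PE C) u v) :
    C.Path C.x0 u C.x0 ∧ Irred C.RA (C.ex u) := by
  have h1 : Irred (RR C) u := fun v hv => h v (Or.inl hv)
  obtain ⟨x, y, hp, hi⟩ := (irred_RR_iff C).1 h1
  refine ⟨?_, hi⟩
  by_cases hu : u = []
  · subst hu; exact rfl
  have hx : C.x0 = x := by
    cases u with
    | nil => exact absurd rfl hu
    | cons b u =>
      by_contra hcon
      have hb : C.x0 ≠ C.src b := by rw [hp.1]; exact hcon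
      exact h _ (Or.inr (Or.inl ⟨u, _, (mem_PB C).2 ⟨b, hb, rfl⟩, by simp, rfl⟩))
  have hy : y = C.x0 := by
    rcases List.eq_nil_or_concat u with rfl | ⟨s, a, hs⟩
    · exact absurd rfl hu
    · rw [List.concat_eq_append] at hs
      subst hs
      by_contra hcon
      have h2 := (path_append.1 hp)
      obtain ⟨z, _, h3⟩ := h2
      have ha : C.tgt a = y := h3.2
      exact h _ (Or.inr (Or.inr ⟨s, _, (mem_PE C).2 ⟨a, by rw [ha]; exact hcon, rfl⟩, rfl, rfl⟩))
  rw [← hx, hy] at hp
  exact hp

theorem endIrred_unique {u v : List (Fin C.N)}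
    (hu : ∀ w, ¬ EndStep (RR C) (PB C) (PE C) u w) (hv' : ∀ w, ¬ EndStep (RR C) (PB C) (PE C) v w)
    (h : hv C (FreeMonoid.ofList u) = hv C (FreeMonoid.ofList v)) : u = v := by
  obtain ⟨h1, h2⟩ := endIrred C hu
  obtain ⟨h3, h4⟩ := endIrred C hv'
  refine nf_unique C h1 h3 h2 h4 ?_
  have e1 := hv_path C h1
  have e2 := hv_path C h3
  rw [h, ← e2] at e1
  exact mul_left_cancel e1

theorem exists_endIrred (u : List (Fin C.N)) : ∃ v,
    ReflTransGen (EndStep (RR C) (PB C) (PE C)) u v ∧
      ∀ w, ¬ EndStep (RR C) (PB C) (PE C) v w := by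
  induction u using (endStep_wf C).induction with
  | _ u ih =>
    by_cases h : ∀ w, ¬ EndStep (RR C) (PB C) (PE C) u w
    · exact ⟨u, ReflTransGen.refl, h⟩
    · push Not at h
      obtain ⟨w, hw⟩ := h
      obtain ⟨v, h1, h2⟩ := ih w hw
      exact ⟨v, ReflTransGen.head hw h1, h2⟩

theorem hv_rtg {u v : List (Fin C.N)} (h : ReflTransGen (EndStep (RR C) (PB C) (PE C)) u v) :
    hv C (FreeMonoid.ofList u) = hv C (FreeMonoid.ofList v) := by
  induction h with
  | refl => rfl
  | tail _ h2 ih => exact ih.trans (hv_endStep C h2)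

theorem endStep_confluent (u v w : List (Fin C.N))
    (h1 : ReflTransGen (EndStep (RR C) (PB C) (PE C)) u v)
    (h2 : ReflTransGen (EndStep (RR C) (PB C) (PE C)) u w) :
    ∃ z, ReflTransGen (EndStep (RR C) (PB C) (PE C)) v z ∧
      ReflTransGen (EndStep (RR C) (PB C) (PE C)) w z := by
  obtain ⟨z, h3, h4⟩ := exists_endIrred C v
  obtain ⟨z', h5, h6⟩ := exists_endIrred C w
  have : z = z' := endIrred_unique C h4 h6 (by
    rw [← hv_rtg C h3, ← hv_rtg C h5, ← hv_rtg C h1, ← hv_rtg C h2])
  subst this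
  exact ⟨z, h3, h5⟩

end

end H69.RE
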