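import Pool.Agent.H1.RW.FreeProd

/-!
# The core of a free factor (MP_56d4a1_al)

The proof is the proof of `H1.RW.freeFactor` (helper1), with the core as conclusion.
-/

set_option autoImplicit false

namespace H69.RE

open Relation Monoid H1.RW

theorem core_freeFactor (G K : Type) [Group G] [Group K] (n : ℕ)
    (R : List (List (Fin n) × List (Fin n))) (hT : Terminating R) (hC : Confluent R)
    (e : Coprod G K ≃* (ruleCon R).Quotient) (g0 : Fin n → G) (s : Fin n → List (K × G))
    (hs : ∀ a, e (Coprod.inl (g0 a) * val (s a)) = cls R [a]) :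
    ∃ (X : Type) (_ : Finite X), Nat.card X ≤ 1 + ∑ a, ((s a).length - 1) ∧
      Nonempty (Core (Fin n) G (Coprod G K) X) := by
  classical
  obtain ⟨φ, h2, h3, h4, h5⟩ := data_of_equiv hT hC e
  have hφ : ∀ a, φ (FreeMonoid.ofList [a]) = Coprod.inl (g0 a) * val (s a) := by
    intro a
    rw [h2, ← MulEquiv.symm_apply_apply e (Coprod.inl (g0 a) * val (s a)), hs a]
    rfl
  set Gs : Subgroup (Coprod G K) := (Coprod.inl : G →* Coprod G K).range with hGs
  let Q := Quotient (QuotientGroup.rightRel Gs)
  let q0 : Q := Quotient.mk _ (1 : Coprod G K)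
  let pos : Fin n → ℕ → Coprod G K := fun a i => Coprod.inl (g0 a) * val ((s a).take i)
  let S : Finset Q := insert q0 (Finset.univ.biUnion (fun a : Fin n =>
    (Finset.Ico 1 (s a).length).image (fun i => (Quotient.mk _ (pos a i)⁻¹ : Q))))
  have hScard : S.card ≤ (∑ a, ((s a).length - 1)) + 1 := by
    refine (Finset.card_insert_le _ _).trans ?_
    refine Nat.add_le_add_right ?_ 1
    refine Finset.card_biUnion_le.trans ?_
    refine Finset.sum_le_sum ?_
    intro a _
    refine Finset.card_image_le.trans ?_
    rw [Nat.card_Ico]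
  have hq0 : q0 ∈ S := Finset.mem_insert_self _ _
  let X := {q : Q // q ∈ S}
  let x0 : X := ⟨q0, hq0⟩
  let r : X → Coprod G K := fun x => if x = x0 then 1 else x.1.out
  have hr : ∀ x : X, (Quotient.mk (QuotientGroup.rightRel Gs) (r x) : Q) = x.1 := by
    intro x
    by_cases hx : x = x0
    · simp only [r, if_pos hx]
      rw [hx]
    · simp only [r, if_neg hx]
      exact Quotient.out_eq x.1
  have hrx0 : r x0 = 1 := by simp only [r, if_pos rfl]
  -- the union of the cosets
  let V : Coprod G K → Prop := fun h => ∃ (y : X) (g : G), h = Coprod.inl g * r y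
  have hV : ∀ h : Coprod G K, V h ↔ (Quotient.mk (QuotientGroup.rightRel Gs) h : Q) ∈ S := by
    intro h
    constructor
    · rintro ⟨y, g, hy⟩
      have : (Quotient.mk (QuotientGroup.rightRel Gs) h : Q) = y.1 := by
        rw [← hr y]
        apply Quotient.sound
        change QuotientGroup.rightRel Gs h (r y)
        rw [QuotientGroup.rightRel_apply, hy]
        refine ⟨g⁻¹, ?_⟩
        rw [map_inv]
        group
      rw [this]
      exact y.2
    · intro hh
      refine ⟨⟨_, hh⟩, ?_⟩
      have h6 : QuotientGroup.rightRel Gs (r ⟨_, hh⟩) h := Quotient.exact (hr ⟨_, hh⟩)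
      rw [QuotientGroup.rightRel_apply] at h6
      obtain ⟨g, hg⟩ := h6
      refine ⟨g, ?_⟩
      rw [hg]
      group
  have hVG : ∀ h, InG h → V h := by
    rintro h ⟨g, rfl⟩
    exact ⟨x0, g, by rw [hrx0, mul_one]⟩
  have hVcross : ∀ h, ¬ V h → ∀ a i, 1 ≤ i → i < (s a).length → ¬ InG (h * pos a i) := by
    rintro h hh a i h1 h2 ⟨g, hg⟩
    apply hh
    rw [hV]
    apply Finset.mem_insert_of_mem
    rw [Finset.mem_biUnion]
    refine ⟨a, Finset.mem_univ _, ?_⟩
    rw [Finset.mem_image]
    refine ⟨i, Finset.mem_Ico.2 ⟨h1, h2⟩, ?_⟩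
    apply Quotient.sound
    change QuotientGroup.rightRel Gs _ _
    rw [QuotientGroup.rightRel_apply]
    refine ⟨g, ?_⟩
    rw [← hg]
    group
  -- steps outside `V` do not change `gam`
  have hstep : ∀ h a, ¬ V h → ¬ V (h * φ (FreeMonoid.ofList [a])) →
      gam (h * φ (FreeMonoid.ofList [a])) = gam h := by
    intro h a h1 h2
    have h6 : ¬ InG h := fun hh => h1 (hVG h hh)
    have h7 : ¬ InG (h * Coprod.inl (g0 a)) := by rwa [InG.mul_inl_iff]
    rw [hφ, ← mul_assoc] at h2 ⊢
    rw [walkA (s a) _ h7 ?_ (fun hh => h2 (hVG _ hh)), gam_mul_inl h6]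
    intro i hi1 hi2
    rw [mul_assoc]
    exact hVcross h h1 a i hi1 hi2
  have hsteps : ∀ (w : List (Fin n)) h, ¬ V h →
      (∀ p t, p ++ t = w → ¬ V (h * φ (FreeMonoid.ofList p))) →
      gam (h * φ (FreeMonoid.ofList w)) = gam h := by
    intro w
    induction w using List.reverseRecOn with
    | nil => intro h _ _; rw [FreeMonoid.ofList_nil, map_one, mul_one]
    | append_singleton w a ih =>
      intro h h1 h2
      have h6 := h2 w [a] rfl
      have h7 := h2 (w ++ [a]) [] (by simp)
      rw [FreeMonoid.ofList_append, map_mul, ← mul_assoc] at h7 ⊢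
      rw [hstep _ a h6 h7]
      refine ih h h1 ?_
      intro p t hpt
      exact h2 p (t ++ [a]) (by rw [← List.append_assoc, hpt])
  -- the possible end points
  let E : X → Set (Coprod G K) := fun x =>
    (Set.range (fun a : Fin n => r x * φ (FreeMonoid.ofList [a]))) ∪
    ((⋃ a : Fin n, ⋃ c : Fin n,
      (fun d => Coprod.inl (gam (r x * φ (FreeMonoid.ofList [a]))) * d) ''
        {d | d ∈ ends (s c)}) ∪
     (⋃ a : Fin n, Set.range (fun y : X =>
      Coprod.inl (gam (r x * φ (FreeMonoid.ofList [a])) * (gam (r y))⁻¹) * r y)))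
  have hEfin : ∀ x, (E x).Finite := by
    intro x
    refine (Set.finite_range _).union (Set.Finite.union ?_ ?_)
    · refine Set.finite_iUnion fun a => Set.finite_iUnion fun c => Set.Finite.image _ ?_
      exact List.finite_toSet _
    · exact Set.finite_iUnion fun a => Set.finite_range _
  obtain ⟨C⟩ := exists_core R hT φ h3 h4 h5 (Coprod.inl : G →* Coprod G K)
    Coprod.inl_injective x0 r hrx0 (by
      intro x y g hg
      apply Subtype.ext
      rw [← hr x, ← hr y]
      apply Quotient.sound
      change QuotientGroup.rightRel Gs (r x) (r y)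
      rw [QuotientGroup.rightRel_apply, hg]
      refine ⟨g⁻¹, ?_⟩
      rw [map_inv]
      group) (by
      have htfin : {p : X × Coprod G K | p.2 ∈ E p.1}.Finite := by
        have : {p : X × Coprod G K | p.2 ∈ E p.1} = ⋃ x : X, (Prod.mk x) '' (E x) := by
          ext ⟨x, h⟩
          simp
        rw [this]
        exact Set.finite_iUnion fun x => (hEfin x).image _
      refine Set.Finite.of_injOn (f := fun p : X × List (Fin n) =>
        (p.1, r p.1 * φ (FreeMonoid.ofList p.2))) ?_ ?_ htfin
      · rintro ⟨x, w⟩ ⟨hw1, hw2, ⟨y, g, hw3⟩, hw4⟩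
        change r x * φ (FreeMonoid.ofList w) ∈ E x
        cases w with
        | nil => exact absurd rfl hw1
        | cons a w =>
          rcases List.eq_nil_or_concat w with rfl | ⟨m, c, hmc⟩
          · exact Or.inl ⟨a, rfl⟩
          rw [List.concat_eq_append] at hmc
          subst hmc
          · right
            simp only at hw3 hw4
            have hv1 : ∀ p t, p ++ t = m →
                ¬ V (r x * φ (FreeMonoid.ofList [a]) * φ (FreeMonoid.ofList p)) := by
              rintro p t hpt ⟨z, g', hz⟩
              refine hw4 (a :: p) (t ++ [c]) (by rw [← hpt]; simp) (by simp) (by simp) z g' ?_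
              rw [FreeMonoid.ofList_cons, map_mul, ← mul_assoc]
              exact hz
            have hv2 := hsteps m (r x * φ (FreeMonoid.ofList [a])) (by
              have := hv1 [] m rfl
              rwa [FreeMonoid.ofList_nil, map_one, mul_one] at this) hv1
            have hv3 := hv1 m [] (by simp)
            set h := r x * φ (FreeMonoid.ofList [a]) * φ (FreeMonoid.ofList m) with hh
            have hv4 : ¬ InG h := fun hh => hv3 (hVG h hh)
            have hv5 : ¬ InG (h * Coprod.inl (g0 c)) := by rwa [InG.mul_inl_iff]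
            have hend : r x * φ (FreeMonoid.ofList (a :: (m ++ [c]))) =
                h * Coprod.inl (g0 c) * val (s c) := by
              rw [FreeMonoid.ofList_cons, FreeMonoid.ofList_append, map_mul, map_mul, hφ c, hh]
              simp only [mul_assoc]
              rfl
            rw [hend]
            have hg1 : gam (h * Coprod.inl (g0 c)) =
                gam (r x * φ (FreeMonoid.ofList [a])) := by
              rw [gam_mul_inl hv4, hv2]
            rcases walkB (s c) _ hv5 with hB | ⟨d, hd1, hd2⟩
            · right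
              rw [Set.mem_iUnion]
              refine ⟨a, y, ?_⟩
              have e1 : h * Coprod.inl (g0 c) * val (s c) = Coprod.inl g * r y := by
                rw [← hend]; exact hw3
              have e2 : g * gam (r y) = gam (r x * φ (FreeMonoid.ofList [a])) := by
                rw [← gam_inl_mul, ← e1, hB, hg1]
              simp only
              rw [e1, ← e2]
              congr 2
              group
            · left
              rw [Set.mem_iUnion]
              refine ⟨a, ?_⟩
              rw [Set.mem_iUnion]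
              refine ⟨c, d, hd1, ?_⟩
              simp only
              rw [hd2, hg1]
      · rintro ⟨x, w⟩ ⟨_, hw2, _, _⟩ ⟨x', w'⟩ ⟨_, hw2', _, _⟩ heq
        simp only [Prod.mk.injEq] at heq
        obtain ⟨rfl, heq⟩ := heq
        rw [h5 w w' hw2 hw2' (mul_left_cancel heq)])
  have hcX : Nat.card X = S.card := by
    rw [Nat.card_eq_fintype_card, Fintype.card_coe]
  exact ⟨X, inferInstance, by rw [hcX]; omega, ⟨C⟩⟩


end H69.RE
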