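import Pool.Agent.H69.RE.Pres

/-!
# Assembly: completeness up to rules anchored at the ends (MP_56d4a1_al)
-/

set_option autoImplicit false

namespace H69.RE

open Relation H1.RW H1.RW.Core Monoid

section

variable {A G H X : Type} [Group G] [Group H] (C : Core A G H X)

theorem join_iff (u v : List (Fin C.N)) : cls (RR C) u = cls (RR C) v ↔
    ∃ z, ReflTransGen (EndStep (RR C) (PB C) (PE C)) u z ∧
      ReflTransGen (EndStep (RR C) (PB C) (PE C)) v z := by
  constructor
  · intro h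
    obtain ⟨z, h1, h2⟩ := exists_endIrred C u
    obtain ⟨z', h3, h4⟩ := exists_endIrred C v
    have : z = z' := endIrred_unique C h2 h4 (by
      rw [← hv_rtg C h1, ← hv_rtg C h3, ← V_cls, ← V_cls, h])
    subst this
    exact ⟨z, h1, h3⟩
  · rintro ⟨z, h1, h2⟩
    have aux : ∀ w w', ReflTransGen (EndStep (RR C) (PB C) (PE C)) w w' →
        cls (RR C) w = cls (RR C) w' := by
      intro w w' h
      induction h with
      | refl => rfl
      | tail _ h2 ih => exact ih.trans (cls_endStep C h2)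
    rw [aux _ _ h1, aux _ _ h2]

theorem PB_nil [Finite X] (h : Nat.card X = 1) : PB C = [] ∧ PE C = [] := by
  have hs : Subsingleton X := (Nat.card_eq_one_iff_unique.1 h).1
  constructor
  · rw [List.eq_nil_iff_forall_not_mem]
    intro p hp
    obtain ⟨b, hb, _⟩ := (mem_PB C).1 hp
    exact hb (Subsingleton.elim _ _)
  · rw [List.eq_nil_iff_forall_not_mem]
    intro p hp
    obtain ⟨b, hb, _⟩ := (mem_PE C).1 hp
    exact hb (Subsingleton.elim _ _)

end

theorem upToEndRules (G K : Type) [Group G] [Group K] (n : ℕ)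
    (R : List (List (Fin n) × List (Fin n))) (hT : Terminating R) (hC : Confluent R)
    (e : Coprod G K ≃* (ruleCon R).Quotient) (g0 : Fin n → G) (s : Fin n → List (K × G))
    (hs : ∀ a, e (Coprod.inl (g0 a) * val (s a)) = cls R [a]) :
    ∃ k m : ℕ, 1 ≤ k ∧ k ≤ 1 + ∑ a, ((s a).length - 1) ∧
      ∃ (R' P S : List (List (Fin m) × List (Fin m))) (f : G ≃* (ruleCon R').Quotient),
        (∀ p ∈ P, p.1.length = 1) ∧ (∀ p ∈ S, p.1.length = 1) ∧ (k = 1 → P = [] ∧ S = []) ∧
        WellFounded (fun v u : List (Fin m) => EndStep R' P S u v) ∧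
        (∀ u v : List (Fin m), cls R' u = cls R' v ↔
          ∃ z, ReflTransGen (EndStep R' P S) u z ∧ ReflTransGen (EndStep R' P S) v z) ∧
        (∀ g : G, g ≠ 1 → {u | Irred R' u ∧ cls R' u = f g}.ncard = k ^ 2) ∧
        {u | Irred R' u ∧ cls R' u = f 1}.ncard + k = k ^ 2 + 1 := by
  obtain ⟨X, hX, hcard, ⟨C⟩⟩ := core_freeFactor G K n R hT hC e g0 s hs
  have : Nonempty X := ⟨C.x0⟩
  refine ⟨Nat.card X, C.N, Nat.card_pos, hcard, RR C, PB C, PE C, isoG C, ?_, ?_,
    PB_nil C, endStep_wf C, join_iff C, fun g hg => ncard_ne C hg, ncard_one C⟩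
  · intro p hp
    obtain ⟨b, _, rfl⟩ := (mem_PB C).1 hp
    rfl
  · intro p hp
    obtain ⟨b, _, rfl⟩ := (mem_PE C).1 hp
    rfl

end H69.RE
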