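import Pool.Agent.H69.RE.End

/-!
# The rules present the group; counting irreducible words (MP_56d4a1_al)
-/

set_option autoImplicit false

namespace H69.RE

open Relation H1.RW H1.RW.Core

section

variable {A G H X : Type} [Group G] [Group H] (C : Core A G H X)

/-- The map between the presented monoids. -/
noncomputable def q : C.Mon →* (ruleCon (RR C)).Quotient :=
  (ruleCon C.RS).lift (ruleCon (RR C)).mk' (by
    unfold ruleCon
    rw [Con.conGen_le]
    rintro a b ⟨p, hp, rfl, rfl⟩
    change (ruleCon (RR C)).mk' _ = (ruleCon (RR C)).mk' _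
    exact (Con.eq _).2 (con_of_step ⟨[], [], p, List.mem_append.2 (Or.inl hp), by simp, by simp⟩))

theorem q_cls (u : List (Fin C.N)) : q C (cls C.RS u) = cls (RR C) u := rfl

theorem T_letter (a : Fin C.N) : C.T (C.src a) (C.φ (FreeMonoid.ofList (C.ex [a]))) (C.tgt a) := by
  have hp : C.Path (C.src a) [a] (C.tgt a) := ⟨rfl, rfl⟩
  exact hp.T

theorem cls_letter (a : Fin C.N) : cls C.RS [a] =
    C.P (C.src a) (C.φ (FreeMonoid.ofList (C.ex [a]))) := by
  have hp : C.Path (C.src a) [a] (C.tgt a) := ⟨rfl, rfl⟩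
  exact P_spec hp rfl

theorem left_inv (a : Fin C.N) : ∃ m, m * cls (RR C) [a] = 1 := by
  refine ⟨q C (C.P (C.tgt a) (C.φ (FreeMonoid.ofList (C.ex [a])))⁻¹), ?_⟩
  rw [← q_cls, ← map_mul, cls_letter, P_mul (T_letter C a).inv (T_letter C a), inv_mul_cancel,
    P_one, map_one]

theorem right_inv (a : Fin C.N) : ∃ m, cls (RR C) [a] * m = 1 := by
  refine ⟨q C (C.P (C.tgt a) (C.φ (FreeMonoid.ofList (C.ex [a])))⁻¹), ?_⟩
  rw [← q_cls, ← map_mul, cls_letter, P_mul (T_letter C a) (T_letter C a).inv, mul_inv_cancel,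
    P_one, map_one]

theorem cls_kap (x y : X) : cls (RR C) (kap C x y) = 1 := by
  by_cases hxy : x = y
  · subst hxy
    rw [kap_self, cls_nil]
  obtain ⟨a, ha⟩ : ∃ a, C.tgt a = x := by
    have hp := kap_path C y x
    have hne := kap_ne C (Ne.symm hxy)
    rcases List.eq_nil_or_concat (kap C y x) with h | ⟨s, a, h⟩
    · exact absurd h hne
    · rw [List.concat_eq_append] at h
      rw [h, path_append] at hp
      obtain ⟨z, _, h3⟩ := hp
      exact ⟨a, h3.2⟩
  obtain ⟨b, hb⟩ : ∃ b, C.src b = y := by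
    have hp := kap_path C y x
    have hne := kap_ne C (Ne.symm hxy)
    generalize kap C y x = w at hp hne
    cases w with
    | nil => exact absurd rfl hne
    | cons b w => exact ⟨b, hp.1⟩
  have hab : C.tgt a ≠ C.src b := by rw [ha, hb]; exact hxy
  have h1 : cls (RR C) [a, b] = cls (RR C) (a :: (kap C (C.tgt a) (C.src b) ++ [b])) := by
    refine (Con.eq _).2 (con_of_step ⟨[], [], _,
      List.mem_append.2 (Or.inr ((mem_J C).2 ⟨a, b, hab, rfl⟩)), by simp, by simp⟩)
  have h2 : cls (RR C) [a, b] = cls (RR C) [a] * cls (RR C) [b] := cls_append [a] [b]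
  have h3 : cls (RR C) (a :: (kap C (C.tgt a) (C.src b) ++ [b])) =
      cls (RR C) [a] * (cls (RR C) (kap C x y) * cls (RR C) [b]) := by
    rw [← cls_append, ← cls_append, ha, hb]
    rfl
  obtain ⟨m, hm⟩ := left_inv C a
  obtain ⟨m', hm'⟩ := right_inv C b
  rw [h2, h3] at h1
  have h4 : cls (RR C) [b] = cls (RR C) (kap C x y) * cls (RR C) [b] := by
    calc cls (RR C) [b] = m * cls (RR C) [a] * cls (RR C) [b] := by rw [hm, one_mul]
      _ = m * (cls (RR C) [a] * (cls (RR C) (kap C x y) * cls (RR C) [b])) := by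
          rw [mul_assoc, h1]
      _ = _ := by rw [← mul_assoc, hm, one_mul]
  calc cls (RR C) (kap C x y) = cls (RR C) (kap C x y) * (cls (RR C) [b] * m') := by
        rw [hm', mul_one]
    _ = cls (RR C) [b] * m' := by rw [← mul_assoc, ← h4]
    _ = 1 := hm'

/-- The value on the presented monoid. -/
noncomputable def V : (ruleCon (RR C)).Quotient →* G :=
  (ruleCon (RR C)).lift (hv C) (by
    unfold ruleCon
    rw [Con.conGen_le]
    rintro a b ⟨p, hp, rfl, rfl⟩
    change hv C _ = hv C _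
    exact hv_RR C hp)

theorem V_cls (u : List (Fin C.N)) : V C (cls (RR C) u) = hv C (FreeMonoid.ofList u) := rfl

/-- The group maps to the presented monoid. -/
noncomputable def U : G →* (ruleCon (RR C)).Quotient := (q C).comp C.PsiG

theorem U_apply (g : G) : U C g = q C (C.P C.x0 (C.ι g)) := rfl

theorem T_base (g : G) : C.T C.x0 (C.ι g) C.x0 := ⟨g, by rw [C.r_x0]; group⟩

theorem V_comp_U : (V C).comp (U C) = MonoidHom.id _ := by
  ext g
  rw [MonoidHom.comp_apply, U_apply, MonoidHom.id_apply]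
  obtain ⟨u, hu1, hu2⟩ := exists_path (T_base C g)
  rw [← P_spec hu1 hu2, q_cls, V_cls]
  have h := hv_path C hu1
  rw [hu2, C.r_x0] at h
  apply C.inj
  simpa using h.symm

theorem q_P_r (x : X) : q C (C.P C.x0 (C.r x)) = 1 := by
  rw [← P_spec (kap_path C C.x0 x) (by rw [kap_val, C.r_x0]; group), q_cls, cls_kap]

theorem q_P_r' (x : X) : q C (C.P x (C.r x)⁻¹) = 1 := by
  rw [← P_spec (kap_path C x C.x0) (by rw [kap_val, C.r_x0]; group), q_cls, cls_kap]

theorem U_hv (b : Fin C.N) : U C (hv C (FreeMonoid.of b)) = cls (RR C) [b] := by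
  have hp : C.Path (C.src b) [b] (C.tgt b) := ⟨rfl, rfl⟩
  have h1 := hv_path C hp
  have e : FreeMonoid.of b = FreeMonoid.ofList [b] := rfl
  rw [U_apply, e]
  have h2 : C.ι (hv C (FreeMonoid.ofList [b])) =
      C.r (C.src b) * C.φ (FreeMonoid.ofList (C.ex [b])) * (C.r (C.tgt b))⁻¹ := by
    rw [h1]; group
  have t1 := T_r (C := C) (C.src b)
  have t2 := T_letter C b
  have t3 := (T_r (C := C) (C.tgt b)).inv
  rw [h2, ← P_mul (t1.mul t2) t3, ← P_mul t1 t2, map_mul, map_mul, q_P_r, q_P_r', one_mul,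
    mul_one, ← cls_letter, q_cls]

theorem U_comp_V : (U C).comp (V C) = MonoidHom.id _ := by
  apply Con.hom_ext
  apply FreeMonoid.hom_eq
  intro b
  exact U_hv C b

/-- The rules present the group. -/
noncomputable def isoG : G ≃* (ruleCon (RR C)).Quotient :=
  MonoidHom.toMulEquiv (U C) (V C) (V_comp_U C) (U_comp_V C)

theorem cls_eq_iff (u : List (Fin C.N)) (g : G) :
    cls (RR C) u = isoG C g ↔ hv C (FreeMonoid.ofList u) = g := by
  rw [← V_cls]
  constructor
  · intro h
    rw [h]
    exact (isoG C).symm_apply_apply g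
  · rintro rfl
    exact ((isoG C).apply_symm_apply _).symm

theorem cls_endStep {u v : List (Fin C.N)} (h : EndStep (RR C) (PB C) (PE C) u v) :
    cls (RR C) u = cls (RR C) v := by
  have h1 := hv_endStep C h
  have h2 := (cls_eq_iff C u (hv C (FreeMonoid.ofList u))).2 rfl
  have h3 := (cls_eq_iff C v (hv C (FreeMonoid.ofList v))).2 rfl
  rw [h2, h3, h1]

/-- The typed normal form of a group element. -/
theorem exists_nfw (x y : X) (g : G) : ∃ u, C.Path x u y ∧ Irred C.RA (C.ex u) ∧
    C.r x * C.φ (FreeMonoid.ofList (C.ex u)) = C.ι g * C.r y := by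
  have hT : C.T x ((C.r x)⁻¹ * (C.ι g * C.r y)) y := ⟨g, by group⟩
  obtain ⟨u, h1, h2, h3⟩ := exists_nf C hT
  exact ⟨u, h1, h2, by rw [h3]; group⟩

/-- The typed normal form of a group element. -/
noncomputable def nfw (g : G) (p : X × X) : List (Fin C.N) := (exists_nfw C p.1 p.2 g).choose

theorem nfw_path (g : G) (p : X × X) : C.Path p.1 (nfw C g p) p.2 :=
  (exists_nfw C p.1 p.2 g).choose_spec.1

theorem nfw_irr (g : G) (p : X × X) : Irred C.RA (C.ex (nfw C g p)) :=
  (exists_nfw C p.1 p.2 g).choose_spec.2.1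

theorem nfw_val (g : G) (p : X × X) : hv C (FreeMonoid.ofList (nfw C g p)) = g := by
  have h1 := (exists_nfw C p.1 p.2 g).choose_spec.2.2
  have h2 := hv_path C (nfw_path C g p)
  apply C.inj
  have h3 : C.ι (hv C (FreeMonoid.ofList (nfw C g p))) * C.r p.2 = C.ι g * C.r p.2 := by
    rw [← h2]; exact h1
  exact mul_right_cancel h3

theorem eq_nfw {x y : X} {u : List (Fin C.N)} (hp : C.Path x u y) (hi : Irred C.RA (C.ex u)) :
    u = nfw C (hv C (FreeMonoid.ofList u)) (x, y) := by
  refine nf_unique C hp (nfw_path C _ (x, y)) hi (nfw_irr C _ (x, y)) ?_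
  have h1 := hv_path C hp
  have h2 := hv_path C (nfw_path C (hv C (FreeMonoid.ofList u)) (x, y))
  rw [nfw_val] at h2
  exact mul_left_cancel (h1.trans h2.symm)

theorem nfw_nil {g : G} {p : X × X} (h : nfw C g p = []) : p.1 = p.2 ∧ g = 1 := by
  have h1 := nfw_path C g p
  have h2 := nfw_val C g p
  rw [h] at h1 h2
  exact ⟨h1, by rw [← h2, FreeMonoid.ofList_nil, map_one]⟩

theorem nfw_inj {g g' : G} {p p' : X × X} (h : nfw C g p = nfw C g' p') (hne : nfw C g p ≠ []) :
    p = p' := by
  have h1 := nfw_path C g p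
  have h2 := nfw_path C g' p'
  rw [← h] at h2
  have e1 := Path.start hne h1 h2
  rw [← e1] at h2
  exact Prod.ext e1 (Path.end_eq h1 h2)

/-- The irreducible words of `g`. -/
theorem irredSet (g : G) : {u | Irred (RR C) u ∧ cls (RR C) u = isoG C g} =
    Set.range (nfw C g) := by
  ext u
  simp only [Set.mem_setOf_eq, Set.mem_range]
  rw [irred_RR_iff, cls_eq_iff]
  constructor
  · rintro ⟨⟨x, y, h1, h2⟩, rfl⟩
    exact ⟨(x, y), (eq_nfw C h1 h2).symm⟩
  · rintro ⟨p, rfl⟩
    exact ⟨⟨p.1, p.2, nfw_path C g p, nfw_irr C g p⟩, nfw_val C g p⟩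

theorem ncard_ne [Finite X] {g : G} (hg : g ≠ 1) :
    {u | Irred (RR C) u ∧ cls (RR C) u = isoG C g}.ncard = Nat.card X ^ 2 := by
  rw [irredSet, ← Set.image_univ, Set.ncard_image_of_injective, Set.ncard_univ, Nat.card_prod, sq]
  intro p p' h
  refine nfw_inj C h ?_
  intro h0
  exact hg (nfw_nil C h0).2

theorem nfw_diag (x : X) : nfw C 1 (x, x) = [] := by
  have hp : C.Path x [] x := rfl
  have := eq_nfw C hp (by rw [ex_nil]; exact irred_nil)
  rw [FreeMonoid.ofList_nil, map_one] at this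
  exact this.symm

theorem ncard_one [Finite X] :
    {u | Irred (RR C) u ∧ cls (RR C) u = isoG C 1}.ncard + Nat.card X = Nat.card X ^ 2 + 1 := by
  classical
  have : Fintype X := Fintype.ofFinite X
  have e : Set.range (nfw C 1) =
      insert [] (nfw C 1 '' ((Finset.univ : Finset X).offDiag : Set (X × X))) := by
    ext u
    simp only [Set.mem_range, Set.mem_insert_iff, Set.mem_image, Finset.mem_coe,
      Finset.mem_offDiag, Finset.mem_univ, true_and]
    constructor
    · rintro ⟨p, rfl⟩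
      by_cases hp : p.1 = p.2
      · left
        have : p = (p.1, p.1) := Prod.ext rfl hp.symm
        rw [this]
        exact nfw_diag C p.1
      · exact Or.inr ⟨p, hp, rfl⟩
    · rintro (rfl | ⟨p, _, rfl⟩)
      · exact ⟨(C.x0, C.x0), nfw_diag C C.x0⟩
      · exact ⟨p, rfl⟩
  have hnot : ([] : List (Fin C.N)) ∉
      nfw C 1 '' ((Finset.univ : Finset X).offDiag : Set (X × X)) := by
    rintro ⟨p, hp, h⟩
    simp only [Finset.mem_coe, Finset.mem_offDiag, Finset.mem_univ, true_and] at hp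
    exact hp (nfw_nil C h).1
  have hinj : Set.InjOn (nfw C 1) ((Finset.univ : Finset X).offDiag : Set (X × X)) := by
    intro p hp p' _ h
    simp only [Finset.mem_coe, Finset.mem_offDiag, Finset.mem_univ, true_and] at hp
    refine nfw_inj C h ?_
    intro h0
    exact hp (nfw_nil C h0).1
  rw [irredSet, e, Set.ncard_insert_of_notMem hnot (Set.toFinite _), Set.ncard_image_of_injOn hinj,
    Set.ncard_coe_finset, Finset.offDiag_card, Finset.card_univ, Nat.card_eq_fintype_card]
  have h1 : Fintype.card X ≤ Fintype.card X * Fintype.card X := Nat.le_mul_self _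
  rw [sq]
  omega

end

end H69.RE
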